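import Pool.Agent.T4h28.DT.U
import Pool.Agent.Results.MP_2000e9_nt.PatternsOfOneWeight

/-!
# MP_2000e9_nt: multiple zeta values of one weight at the divisors of shifted primes

Let `w_1, ..., w_r` be different admissible patterns in `k` variables with the same weight at every tuple, such that initial
segments of the same weight of their constant parts are equal, as in the starting file `PatternsOfOneWeight`. For all but
`M (X / log X)^k / √y` of the `k`-tuples of primes `p_i ≤ X`, for ALL tuples of divisors `s_i` of `p_i + b_i` which are of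
comparable size `T ≤ s_i ≤ κ T`, `T ≥ y`, the multiple zeta values `ζ(w_1(s)), ..., ζ(w_r(s))` of one weight satisfy no
nontrivial linear relation with integer coefficients of absolute value at most `C ^ T`.

Proof. By `PatternsOfOneWeight` at most `K N^(k-1)` of the tuples `s` in `[N, 2 κ N]^k` are bad. For a given tuple `s` the
number of the tuples of primes with `s_i ∣ p_i + b_i` is at most `∏ 176 (1 + |b_i|) X / log X * (1 + log s_i)^3 / s_i`, by the
Brun-Titchmarsh inequality for `s_i ≤ √X` and trivially for the larger `s_i`. So the sum over the bad tuples of the scale `N`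
is at most a power of `log N` over `N` times `(X / log X)^k`. The number of the divisors is not bounded, and the divisors of
`p + b` are in general much smaller than `p`, so that this is not a consequence of the number of the bad tuples alone.
-/

set_option autoImplicit false

namespace Pool.Agent.Results.MP_2000e9_nt.DivisorsOfShiftedPrimes

open Pool.Agent.T4h28.DT (BadAt BadPrimes machine)
open Pool.Agent.Results.MP_2000e9_nt.PatternsOfOneWeight
  (mzv Letter index AdmissiblePattern constantPart exceptional)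

/-- the multiple zeta values of the patterns at the tuple `s` satisfy no nontrivial linear relation with integer coefficients
of absolute value at most `H` -/
def NoRelation {k r : ℕ} (w : Fin r → List (Letter k)) (H : ℝ) (s : Fin k → ℕ) : Prop :=
  ∀ c : Fin r → ℤ, (∀ i, |(c i : ℝ)| ≤ H) → ∑ i, (c i : ℝ) * mzv (index s (w i)) = 0 → c = 0

lemma mono {k r : ℕ} (w : Fin r → List (Letter k)) {H H' : ℝ} (h : H ≤ H') (s : Fin k → ℕ)
    (hs : NoRelation w H' s) : NoRelation w H s :=
  fun c h1 h2 => hs c (fun i => (h1 i).trans h) h2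

lemma exceptional_eq {k r : ℕ} (w : Fin r → List (Letter k)) (κ N : ℕ) (H : ℝ) :
    {s : Fin k → ℕ | (∀ j, N ≤ s j ∧ s j ≤ κ * N) ∧ ¬ NoRelation w H s} = exceptional w κ N H := by
  ext s
  constructor
  · rintro ⟨h1, h2⟩
    unfold NoRelation at h2
    push Not at h2
    obtain ⟨c, h3, h4, h5⟩ := h2
    exact ⟨h1, c, h5, h3, h4⟩
  · rintro ⟨h1, c, h3, h4, h5⟩
    exact ⟨h1, fun h => h3 (h c h4 h5)⟩

lemma pow_bound (C : ℝ) {N T : ℕ} (h : T ≤ 2 * N) : C ^ T ≤ ((max |C| 1) ^ 2) ^ N := by
  have h5 : (1 : ℝ) ≤ max |C| 1 := le_max_right _ _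
  calc C ^ T ≤ |C ^ T| := le_abs_self _
    _ = |C| ^ T := abs_pow C T
    _ ≤ (max |C| 1) ^ T := pow_le_pow_left₀ (abs_nonneg C) (le_max_left _ _) T
    _ ≤ (max |C| 1) ^ (2 * N) := pow_le_pow_right₀ h5 h
    _ = _ := pow_mul _ _ _

/-- Let `k ≥ 1`, let `w_1, ..., w_r` be different admissible patterns in `k` variables which have the same weight at every
tuple and such that initial segments of the same weight of the constant parts of the patterns are equal, let `κ` be a natural
number and `C` real. There is `M` such that for all integers `b_1, ..., b_k`, all `y ≥ 1` and `X ≥ 4`, for all but at most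
`M ∏ (1 + |b_i|) (X / log X)^k / √y` of the tuples of primes with `|b_i| < p_i ≤ X`: for ALL `T ≥ y` and ALL tuples `s` of
natural numbers with `T ≤ s_i ≤ κ T` and `s_i ∣ p_i + b_i` for all `i`, the multiple zeta values `ζ(w_i(s))` satisfy no
nontrivial linear relation with integer coefficients of absolute value at most `C ^ T`. -/
theorem result {k r : ℕ} (hk : 1 ≤ k) (w : Fin r → List (Letter k)) (hw : ∀ i, AdmissiblePattern (w i))
    (hinj : Function.Injective w)
    (hweight : ∀ i j (s : Fin k → ℕ), (index s (w i)).sum = (index s (w j)).sum)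
    (hfront : ∀ i j q q', q <+: constantPart (w i) → q' <+: constantPart (w j) → q.sum = q'.sum → q = q')
    (κ : ℕ) (C : ℝ) :
    ∃ M : ℝ, 0 ≤ M ∧ ∀ (b : Fin k → ℤ) (X y : ℕ), 1 ≤ y → 4 ≤ X →
      ({p : Fin k → ℕ | (∀ i, (p i).Prime ∧ |b i| < p i ∧ p i ≤ X) ∧
        ¬ ∀ (T : ℕ) (s : Fin k → ℕ), y ≤ T → (∀ i, T ≤ s i ∧ s i ≤ κ * T ∧ (s i : ℤ) ∣ (p i : ℤ) + b i) →
          NoRelation w (C ^ T) s}.ncard : ℝ) ≤
        M * (∏ i, (1 + |(b i : ℝ)|)) * (X / Real.log X) ^ k / √(y : ℝ) := by
  obtain ⟨m, rfl⟩ : ∃ m, k = m + 1 := ⟨k - 1, by omega⟩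
  obtain ⟨K, hK⟩ := Pool.Agent.Results.MP_2000e9_nt.PatternsOfOneWeight.result w hw hinj hweight hfront (2 * κ)
  obtain ⟨N₀, hN₀⟩ := hK ((max |C| 1) ^ 2)
  obtain ⟨M, hM0, hM⟩ := machine κ (fun T s => ¬ NoRelation w (C ^ T) s) K N₀ (fun N hN => by
    have h1 := hN₀ N hN
    rw [Nat.add_sub_cancel, ← exceptional_eq] at h1
    refine le_trans (Set.ncard_le_ncard ?_ ?_) h1
    · rintro s ⟨g1, T, g2, g3, g4⟩
      exact ⟨g1, fun h => g4 (mono w (pow_bound C g3.le) s h)⟩
    · refine (Set.Finite.pi' (t := fun _ : Fin (m + 1) => Set.Icc N (2 * κ * N)) fun _ => Set.finite_Icc _ _).subset ?_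
      intro s hs j
      exact ⟨(hs.1 j).1, (hs.1 j).2⟩)
  refine ⟨M, hM0, fun b X y hy hX => ?_⟩
  have h2 := hM b X y hy hX
  have e1 : ∏ i, (1 + ((b i).natAbs : ℝ)) = ∏ i, (1 + |(b i : ℝ)|) := by
    refine Finset.prod_congr rfl fun i _ => ?_
    rw [Nat.cast_natAbs, Int.cast_abs]
  rw [e1] at h2
  refine le_trans (le_of_eq ?_) h2
  congr 2
  ext p
  simp only [Set.mem_ofPred_eq, BadPrimes, not_forall, exists_prop]
  constructor
  · rintro ⟨g1, T, s, g2, g3, g4⟩
    refine ⟨fun i => ⟨(g1 i).1, ?_, (g1 i).2.2⟩, T, s, g2, g3, g4⟩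
    have := (g1 i).2.1
    rw [Int.abs_eq_natAbs] at this
    exact_mod_cast this
  · rintro ⟨g1, T, s, g2, g3, g4⟩
    refine ⟨fun i => ⟨(g1 i).1, ?_, (g1 i).2.2⟩, T, s, g2, g3, g4⟩
    have := (g1 i).2.1
    rw [Int.abs_eq_natAbs]
    exact_mod_cast this

end Pool.Agent.Results.MP_2000e9_nt.DivisorsOfShiftedPrimes
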